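import Pool.Agent.N65.TL.Ring
import Pool.Agent.N65.TL.Unram
import Pool.Agent.Y797.TW.Unr
set_option autoImplicit false

/-!
The symbols `{z_0, ..., z_s, u_0, ..., u_n}` on the fibrations
`W(z) = λ g ∏_j ∏_i (x_j - φ_{j,i})` over towers of graphs, and their unramifiedness.
-/

namespace Pool.Agent.L7h9.LT

open scoped WithZero

open MvPolynomial

open Pool.Agent.TH826.MK

open Pool.Agent.N65.TL

open Pool.Agent.Y797.TW (Tower val_le_one)

section defs

variable {K : Type*} [Field K] {s n : ℕ} (W : LP K (s + 1)) (A : Tower K n) (lam : K)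

/-- The polynomial `Φ = λ g ∏_j ∏_i (x_j - φ_{j,i})`. -/
noncomputable def tPhi : MvPolynomial (Fin (n + 1)) K := C lam * A.prod

theorem fac_dvd (j : Fin (n + 1)) (i : Fin (A.r j + 1)) : A.fac j i ∣ tPhi A lam := by
  unfold tPhi Tower.prod
  exact Dvd.dvd.mul_left (Dvd.dvd.mul_left
    ((Finset.dvd_prod_of_mem (fun i => A.fac j i) (Finset.mem_univ i)).trans
      (Finset.dvd_prod_of_mem (fun j => ∏ i, A.fac j i) (Finset.mem_univ j))) _) _

/-- The unit `x_j - φ_{j,i}` of the open part. -/
noncomputable def tL (j : Fin (n + 1)) (i : Fin (A.r j + 1)) : (FOpen W (tPhi A lam))ˣ :=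
  fdiv W (fac_dvd A lam j i)

/-- The unit `u_j = (x_j - φ_{j,k_j + 1}) / (x_j - φ_{j,0})` of the open part. -/
noncomputable def tu (k : ∀ j, Fin (A.r j)) (j : Fin (n + 1)) : (FOpen W (tPhi A lam))ˣ :=
  tL W A lam j (k j).succ / tL W A lam j 0

/-- The entries `z_0, ..., z_s, u_0, ..., u_n` of the symbol. -/
noncomputable def tent (k : ∀ j, Fin (A.r j)) (l : Fin (s + (n + 1) + 1)) :
    (FOpen W (tPhi A lam))ˣ :=
  Sum.elim (fz W (tPhi A lam)) (tu W A lam k) ((esum s n).symm l)

end defs

variable {K : Type*} [Field K] {s n : ℕ} {W : LP K (s + 1)} {A : Tower K n} {lam : K}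

theorem tPhi_of_hom {B : Type*} [CommRing B] (F : MvPolynomial (Fin (n + 1)) K →+* B) :
    F (tPhi A lam) = F (C lam) * (F A.g * ∏ j, ∏ i, F (A.fac j i)) := by
  unfold tPhi Tower.prod
  simp only [map_mul, map_prod]

/-- The symbols are unramified at all discrete valuations. -/
theorem tent_mem_unitPart (hWint : Interior W) (hWt : Tame W) (hG : A.Graphs) (hI : A.Integral)
    (hlam : IsIntegral ℤ lam) {L : Type*} [Field L] (f : FOpen W (tPhi A lam) →+* L)
    (v : Valuation L ℤᵐ⁰) (k : ∀ j, Fin (A.r j)) :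
    symb (fun l => Units.map (f : FOpen W (tPhi A lam) →* L) (tent W A lam k l)) ∈
      unitPart v (s + (n + 1) + 1) := by
  classical
  set F : MvPolynomial (Fin (n + 1)) K →+* L := f.comp (fx W (tPhi A lam)) with hF
  have hc : ∀ x : K, IsIntegral ℤ x → v (F (C x)) ≤ 1 := fun x hx =>
    val_le_one_of_integral v (map_isIntegral_int (F.comp (C : K →+* _)) hx)
  set E : Fin (s + (n + 1) + 1) → Lˣ := fun l =>
    Units.map (f : FOpen W (tPhi A lam) →* L) (tent W A lam k l) with hE
  set z : Fin (s + 1) → Lˣ := fun i =>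
    Units.map (f : FOpen W (tPhi A lam) →* L) (fz W (tPhi A lam) i) with hz
  have hEz : ∀ i, E (esum s n (Sum.inl i)) = z i := by
    intro i
    simp only [hE]
    unfold tent
    rw [Equiv.symm_apply_apply, Sum.elim_inl]
  have hEu : ∀ j, (E (esum s n (Sum.inr j)) : L) =
      F (A.fac j (k j).succ) / F (A.fac j 0) := by
    intro j
    simp only [hE]
    unfold tent
    rw [Equiv.symm_apply_apply, Sum.elim_inr]
    unfold tu
    rw [map_div, Units.val_div_eq_div_val]
    rfl
  have hne : ∀ j i, F (A.fac j i) ≠ 0 := fun j i =>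
    (Units.map (f : FOpen W (tPhi A lam) →* L) (tL W A lam j i)).ne_zero
  change symb E ∈ unitPart v (s + (n + 1) + 1)
  by_cases hB : ∃ j, 1 < v (F (X j))
  · -- the last one
    have hnem : (Finset.univ.filter fun j : Fin (n + 1) => 1 < v (F (X j))).Nonempty := by
      obtain ⟨j, hj⟩ := hB
      exact ⟨j, Finset.mem_filter.2 ⟨Finset.mem_univ _, hj⟩⟩
    set j := (Finset.univ.filter fun j : Fin (n + 1) => 1 < v (F (X j))).max' hnem with hjdef
    have hj : 1 < v (F (X j)) := (Finset.mem_filter.1 (Finset.max'_mem _ hnem)).2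
    have hlt : ∀ l, j < l → v (F (X l)) ≤ 1 := by
      intro l hl
      by_contra hcon
      refine absurd (Finset.le_max' _ l (Finset.mem_filter.2 ⟨Finset.mem_univ _, ?_⟩))
        (not_le.2 hl)
      exact not_le.1 hcon
    have hphi : ∀ i, v (F (A.phi j i)) ≤ 1 := fun i =>
      val_le_one F v (hI.1 j i) fun l hl => hlt l (hG.1 j i l hl)
    refine mem_unitPart_of_oneUnit' v (esum s n (Sum.inr j)) E ?_
    rw [hEu]
    have e1 : ∀ i, F (A.fac j i) = F (X j) - F (A.phi j i) := fun i => by
      rw [← map_sub]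
      rfl
    rw [div_sub_one (hne j 0), map_div₀, e1, e1]
    have h1 : v (F (X j) - F (A.phi j 0)) = v (F (X j)) :=
      Valuation.map_sub_eq_of_lt_left v ((hphi 0).trans_lt hj)
    have h2 : v (F (X j) - F (A.phi j (k j).succ) - (F (X j) - F (A.phi j 0))) ≤ 1 := by
      have e : F (X j) - F (A.phi j (k j).succ) - (F (X j) - F (A.phi j 0)) =
        F (A.phi j 0) - F (A.phi j (k j).succ) := by ring
      rw [e]
      exact (v.map_sub _ _).trans (max_le (hphi _) (hphi _))
    rw [h1]
    have h3 : 0 < v (F (X j)) := zero_lt_one.trans hj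
    rw [div_lt_one₀ h3]
    exact h2.trans_lt hj
  · push Not at hB
    have hphi : ∀ j i, v (F (A.phi j i)) ≤ 1 := fun j i =>
      val_le_one F v (hI.1 j i) fun l _ => hB l
    have hg : v (F A.g) ≤ 1 := val_le_one F v hI.2 fun l _ => hB l
    have hsub : ∀ j i, v (F (A.fac j i)) ≤ 1 := fun j i => by
      unfold Tower.fac
      rw [map_sub]
      exact (v.map_sub _ _).trans (max_le (hB j) (hphi j i))
    have hFP : v (F (tPhi A lam)) = v (F (C lam)) * (v (F A.g) *
        ∏ j, ∏ i, v (F (A.fac j i))) := by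
      rw [tPhi_of_hom]
      simp only [map_mul, map_prod]
    have hprodle : ∏ j, ∏ i, v (F (A.fac j i)) ≤ 1 :=
      Finset.prod_le_one' fun j _ => Finset.prod_le_one' fun i _ => hsub j i
    have hP1 : v (F (tPhi A lam)) ≤ 1 := by
      rw [hFP]
      exact mul_le_one' (hc _ hlam) (mul_le_one' hg hprodle)
    have heqn : lev (f.comp (fcst W (tPhi A lam))) z W = F (tPhi A lam) :=
      flau_eq W (tPhi A lam) f
    by_cases hsmall : ∃ m0, W.coeff m0 ≠ 0 ∧ v (F (tPhi A lam)) < v ((mon z m0 : Lˣ) : L)
    · obtain ⟨m0, hm0, hlt⟩ := hsmall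
      have hzE : (fun j => E (esum s n (Sum.inl j))) = z := funext hEz
      refine mem_unitPart_of_tame (f.comp (fcst W (tPhi A lam))) v E
        (p := fun i => esum s n (Sum.inl i)) (fun i j h =>
          Sum.inl_injective ((esum s n).injective h)) hWt hm0 ?_
      rw [hzE, heqn]
      exact hlt
    · push Not at hsmall
      -- all `z_i` are units
      choose o ho using fun j => exists_ord v (z j)
      have hvm : ∀ m : Fin (s + 1) → ℤ, v ((mon z m : Lˣ) : L) =
          WithZero.exp (∑ j, o j * m j) := by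
        intro m
        unfold mon
        rw [Units.coe_prod, map_prod]
        have h2 : ∀ t : Finset (Fin (s + 1)), ∏ j ∈ t, v ((z j ^ m j : Lˣ) : L) =
            WithZero.exp (∑ j ∈ t, o j * m j) := by
          intro t
          induction t using Finset.induction_on with
          | empty => simp
          | insert j t hj ih =>
            rw [Finset.prod_insert hj, Finset.sum_insert hj, WithZero.exp_add, ih,
              Units.val_zpow_eq_zpow_val, map_zpow₀, ho, ← WithZero.exp_zsmul, smul_eq_mul,
              mul_comm (m j)]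
        exact h2 Finset.univ
      have ho0 : o = 0 := by
        by_contra hne
        obtain ⟨m0, hm0, hpos⟩ := hWint o hne
        have h1 := (hsmall m0 hm0).trans hP1
        rw [hvm, ← WithZero.exp_zero, WithZero.exp_le_exp] at h1
        omega
      have hz1 : ∀ i, v (z i : L) = 1 := by
        intro i
        rw [ho i, ho0, Pi.zero_apply, WithZero.exp_zero]
      obtain ⟨m0, hm0, -⟩ := hWint (fun _ => 1) (fun h => by
        have := congrFun h 0
        simp at this)
      have hP2 : v (F (tPhi A lam)) = 1 := by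
        refine le_antisymm hP1 ?_
        have h1 := hsmall m0 hm0
        rw [hvm, ho0] at h1
        simpa using h1
      have hone := hFP.symm.trans hP2
      have hL1 : ∀ j i, v (F (A.fac j i)) = 1 := by
        intro j i
        refine le_antisymm (hsub j i) ?_
        rw [← hone]
        rw [← Finset.mul_prod_erase _ _ (Finset.mem_univ j),
          ← Finset.mul_prod_erase _ _ (Finset.mem_univ i)]
        have h1 : ∏ x ∈ Finset.univ.erase i, v (F (A.fac j x)) ≤ 1 :=
          Finset.prod_le_one' fun i _ => hsub j i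
        have h2 : ∏ x ∈ Finset.univ.erase j, ∏ i, v (F (A.fac x i)) ≤ 1 :=
          Finset.prod_le_one' fun k _ => Finset.prod_le_one' fun i _ => hsub k i
        calc v (F (C lam)) * (v (F A.g) * (v (F (A.fac j i)) *
              (∏ x ∈ Finset.univ.erase i, v (F (A.fac j x))) *
              ∏ x ∈ Finset.univ.erase j, ∏ i, v (F (A.fac x i))))
            ≤ 1 * (1 * (v (F (A.fac j i)) * 1 * 1)) :=
              mul_le_mul' (hc _ hlam) (mul_le_mul' hg (mul_le_mul' (mul_le_mul' le_rfl h1) h2))
          _ = v (F (A.fac j i)) := by rw [one_mul, one_mul, mul_one, mul_one]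
      refine Submodule.subset_span ⟨E, fun l => ?_, rfl⟩
      obtain ⟨r, rfl⟩ := (esum s n).surjective l
      rcases r with i | j
      · rw [hEz]
        exact hz1 i
      · rw [hEu, map_div₀, hL1, hL1, div_one]

theorem tent_mem_unramified (hWint : Interior W) (hWt : Tame W) (hG : A.Graphs)
    (hI : A.Integral) (hlam : IsIntegral ℤ lam) {L : Type*} [Field L]
    (f : FOpen W (tPhi A lam) →+* L) (k : ∀ j, Fin (A.r j)) :
    KQ.map (s + (n + 1) + 1) f (symb (tent W A lam k)) ∈ Unramified L (s + (n + 1) + 1) := by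
  rw [KQ.map_symb]
  unfold Unramified
  simp only [Submodule.mem_iInf]
  intro v _
  exact tent_mem_unitPart hWint hWt hG hI hlam f v k

end Pool.Agent.L7h9.LT
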