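import Pool.Agent.N65.TL.Ring
import Pool.Agent.Y797.TW.Gen
import Pool.Agent.L7h9.LT.Unr
set_option autoImplicit false

/-!
The critical values of Laurent polynomials on the torus are bounded; the fibrations
`W(z) = λ g ∏_j ∏_i (x_j - φ_{j,i})` are smooth outside of `Φ = 0` for large `λ`.
-/

namespace Pool.Agent.L7h9.LT

open MvPolynomial

open Pool.Agent.N65.TL

open Pool.Agent.Y797.TW (Tower)

section crit

variable {s : ℕ} {K : Type*} [Field K]

/-- The value of a Laurent polynomial. -/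
noncomputable def lval (σ : K →+* ℂ) (W : LP K (s + 1)) (z : Fin (s + 1) → ℂ) : ℂ :=
  ∑ m ∈ W.coeff.support, σ (W.coeff m) * ∏ i, z i ^ (m i)

/-- The value of the derivation `z_i ∂/∂z_i` of a Laurent polynomial. -/
noncomputable def lder (σ : K →+* ℂ) (W : LP K (s + 1)) (z : Fin (s + 1) → ℂ)
    (i : Fin (s + 1)) : ℂ :=
  ∑ m ∈ W.coeff.support, σ (W.coeff m) * ((m i : ℂ) * ∏ i, z i ^ (m i))

/-- the exponents of the monomials of the auxiliary polynomial -/
noncomputable def ax (a : ℕ) (u v : ℕ) (m : Fin (s + 1) → ℤ) :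
    Option (Option (Fin (s + 1))) →₀ ℕ :=
  Finsupp.equivFunOnFinite.symm fun o => match o with
    | none => u
    | some none => v
    | some (some i) => (m i + a).toNat

/-- the auxiliary polynomial `y w(z) + μ (y z^a - 1)` -/
noncomputable def aF (σ : K →+* ℂ) (W : LP K (s + 1)) (a : ℕ) :
    MvPolynomial (Option (Option (Fin (s + 1)))) ℂ :=
  ∑ m ∈ W.coeff.support, monomial (ax a 0 1 m) (σ (W.coeff m)) +
    (monomial (ax a 1 1 0) 1 - monomial (Finsupp.single none 1) 1)

/-- the point -/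
noncomputable def ap (a : ℕ) (w : ℂ) (z : Fin (s + 1) → ℂ) : Option (Option (Fin (s + 1))) → ℂ
  | none => -w
  | some none => ∏ i, (z i ^ a)⁻¹
  | some (some i) => z i

theorem eval_ax (a u v : ℕ) {w : ℂ} {z : Fin (s + 1) → ℂ} (hz : ∀ i, z i ≠ 0) (r : ℂ)
    {m : Fin (s + 1) → ℤ} (hm : ∀ i, 0 ≤ m i + a) :
    MvPolynomial.eval (ap a w z) (monomial (ax a u v m) r) =
      r * ((-w) ^ u * ((∏ i, (z i ^ a)⁻¹) ^ v * ((∏ i, z i ^ a) * ∏ i, z i ^ (m i)))) := by
  rw [MvPolynomial.eval_monomial]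
  congr 1
  rw [Finsupp.prod_fintype _ _ (fun _ => pow_zero _), Fintype.prod_option, Fintype.prod_option]
  refine congrArg₂ _ rfl (congrArg₂ _ rfl ?_)
  rw [← Finset.prod_mul_distrib]
  refine Finset.prod_congr rfl fun i _ => ?_
  show z i ^ (m i + a).toNat = _
  rw [← zpow_natCast (z i) a, ← zpow_add₀ (hz i), ← zpow_natCast, Int.toNat_of_nonneg (hm i),
    add_comm]

theorem exists_shift (W : LP K (s + 1)) :
    ∃ a : ℕ, ∀ m ∈ W.coeff.support, ∀ i, 0 ≤ m i + a := by
  classical
  refine ⟨∑ m ∈ W.coeff.support, ∑ i, (m i).natAbs, fun m hm i => ?_⟩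
  have h1 : (m i).natAbs ≤ ∑ i, (m i).natAbs :=
    Finset.single_le_sum (f := fun i => (m i).natAbs) (fun _ _ => Nat.zero_le _)
      (Finset.mem_univ i)
  have h2 : ∑ i, (m i).natAbs ≤ ∑ m ∈ W.coeff.support, ∑ i, (m i).natAbs :=
    Finset.single_le_sum (f := fun m => ∑ i, (m i).natAbs) (fun _ _ => Nat.zero_le _) hm
  have h3 := h1.trans h2
  omega

theorem inv_mul_prod {a : ℕ} {z : Fin (s + 1) → ℂ} (hz : ∀ i, z i ≠ 0) :
    (∏ i, (z i ^ a)⁻¹) * ∏ i, z i ^ a = 1 := by
  rw [← Finset.prod_mul_distrib]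
  exact Finset.prod_eq_one fun i _ => inv_mul_cancel₀ (pow_ne_zero _ (hz i))

/-- The critical values of a Laurent polynomial on the torus are bounded. -/
theorem exists_bound (σ : K →+* ℂ) (W : LP K (s + 1)) :
    ∃ B : ℝ, 0 < B ∧ ∀ z : Fin (s + 1) → ℂ, (∀ i, z i ≠ 0) → B ≤ ‖lval σ W z‖ →
      ∃ i, lder σ W z i ≠ 0 := by
  classical
  obtain ⟨a, ha⟩ := exists_shift W
  obtain ⟨D, hD0, hD⟩ := Pool.Agent.Y797.GC.exists_crit (aF σ W a)
  obtain ⟨B, hB⟩ : ∃ B : ℝ, ∀ c ∈ D.roots.toFinset, ‖c‖ ≤ B :=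
    ⟨∑ c ∈ D.roots.toFinset, ‖c‖, fun c hc =>
      Finset.single_le_sum (f := fun c => ‖c‖) (fun _ _ => norm_nonneg _) hc⟩
  refine ⟨|B| + 1, by positivity, fun z hz hle => ?_⟩
  by_contra hcon
  push Not at hcon
  set w : ℂ := lval σ W z with hw
  have hw0 : w ≠ 0 := by
    intro h
    rw [h, norm_zero] at hle
    linarith [abs_nonneg B]
  set p := ap a w z with hp
  have hy := inv_mul_prod (a := a) hz
  -- the Euler derivations
  have hpne : ∀ o, p o ≠ 0 := by
    intro o
    rcases o with _ | _ | i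
    · exact neg_ne_zero.2 hw0
    · exact Finset.prod_ne_zero_iff.2 fun i _ => inv_ne_zero (pow_ne_zero _ (hz i))
    · exact hz i
  have hm1 : ∀ m ∈ W.coeff.support, ∀ r : ℂ,
      MvPolynomial.eval p (monomial (ax a 0 1 m) r) = r * ∏ i, z i ^ (m i) := by
    intro m hm r
    rw [hp, eval_ax a 0 1 hz r (ha m hm), pow_zero, one_mul, pow_one,
      ← mul_assoc (∏ i, (z i ^ a)⁻¹), hy, one_mul]
  have hm2 : ∀ r : ℂ, MvPolynomial.eval p (monomial (ax a 1 1 0) r) = r * -w := by
    intro r
    rw [hp, eval_ax a 1 1 hz r (fun i => by simp)]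
    simp only [pow_one, Pi.zero_apply, zpow_zero, Finset.prod_const_one, mul_one]
    rw [hy, mul_one]
  have hm3 : ∀ r : ℂ, MvPolynomial.eval p (monomial (Finsupp.single none 1) r) = r * -w := by
    intro r
    rw [MvPolynomial.eval_monomial, Finsupp.prod_single_index
      (h := fun n e => p n ^ e) (pow_zero _), pow_one]
    rfl
  have hval : MvPolynomial.eval p (aF σ W a) = w := by
    unfold aF
    rw [map_add, map_sub, map_sum, hm2, hm3, sub_self, add_zero, hw]
    exact Finset.sum_congr rfl fun m hm => hm1 m hm _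
  have hder : ∀ o, MvPolynomial.eval p (pderiv o (aF σ W a)) = 0 := by
    intro o
    have h1 : MvPolynomial.eval p (X o * pderiv o (aF σ W a)) = 0 := by
      have h2 : X o * pderiv o (aF σ W a) =
          ∑ m ∈ W.coeff.support, (ax a 0 1 m) o • monomial (ax a 0 1 m) (σ (W.coeff m)) +
          ((ax a 1 1 (0 : Fin (s + 1) → ℤ)) o • monomial (ax a 1 1 0) 1 -
            (Finsupp.single none 1 : Option (Option (Fin (s + 1))) →₀ ℕ) o •
              monomial (Finsupp.single none 1) 1) := by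
        unfold aF
        rw [map_add, map_sub, map_sum, mul_add, mul_sub, Finset.mul_sum]
        simp only [X_mul_pderiv_monomial]
      rw [h2, map_add, map_sub, map_sum]
      simp only [map_nsmul, hm2, hm3]
      have h3 : ∑ m ∈ W.coeff.support, (ax a 0 1 m) o •
          MvPolynomial.eval p (monomial (ax a 0 1 m) (σ (W.coeff m))) =
          ∑ m ∈ W.coeff.support, (ax a 0 1 m) o • (σ (W.coeff m) * ∏ i, z i ^ (m i)) :=
        Finset.sum_congr rfl fun m hm => by rw [hm1 m hm]
      rw [h3]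
      rcases o with _ | _ | i
      · have e1 : ∀ m : Fin (s + 1) → ℤ, (ax a 0 1 m) none = 0 := fun _ => rfl
        have e2 : (ax a 1 1 (0 : Fin (s + 1) → ℤ)) none = 1 := rfl
        simp only [e1, e2, zero_smul, Finset.sum_const_zero, Finsupp.single_eq_same, one_smul]
        ring
      · have e1 : ∀ m : Fin (s + 1) → ℤ, (ax a 0 1 m) (some none) = 1 := fun _ => rfl
        have e2 : (ax a 1 1 (0 : Fin (s + 1) → ℤ)) (some none) = 1 := rfl
        have e3 : (Finsupp.single none 1 : Option (Option (Fin (s + 1))) →₀ ℕ) (some none) = 0 :=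
          by simp
        simp only [e1, e2, e3, zero_smul, one_smul]
        have e4 : ∑ m ∈ W.coeff.support, σ (W.coeff m) * ∏ i, z i ^ (m i) = w := rfl
        rw [e4]
        ring
      · have e1 : ∀ m ∈ W.coeff.support, (((ax a 0 1 m) (some (some i)) : ℕ) : ℂ) =
            (m i : ℂ) + a := by
          intro m hm
          show (((m i + a).toNat : ℕ) : ℂ) = _
          have := Int.toNat_of_nonneg (ha m hm i)
          have h5 : (((m i + a).toNat : ℤ) : ℂ) = ((m i + a : ℤ) : ℂ) := by rw [this]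
          push_cast at h5
          exact h5
        have e2 : (ax a 1 1 (0 : Fin (s + 1) → ℤ)) (some (some i)) = a := by
          show ((0 : ℤ) + a).toNat = a
          simp
        have e3 : (Finsupp.single none 1 : Option (Option (Fin (s + 1))) →₀ ℕ)
          (some (some i)) = 0 := by simp
        rw [e2, e3, zero_smul, sub_zero]
        simp only [nsmul_eq_mul]
        have e4 : ∑ m ∈ W.coeff.support, (((ax a 0 1 m) (some (some i)) : ℕ) : ℂ) *
            (σ (W.coeff m) * ∏ i, z i ^ (m i)) = lder σ W z i + a * w := by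
          have e5 : w = ∑ m ∈ W.coeff.support, σ (W.coeff m) * ∏ i, z i ^ (m i) := rfl
          rw [e5, Finset.mul_sum]
          unfold lder
          rw [← Finset.sum_add_distrib]
          refine Finset.sum_congr rfl fun m hm => ?_
          rw [e1 m hm]
          ring
        rw [e4, hcon i]
        ring
    rw [map_mul, MvPolynomial.eval_X] at h1
    exact (mul_eq_zero.1 h1).resolve_left (hpne o)
  have h0 : D.eval w = 0 := by
    rw [← hval, ← Pool.Agent.Y797.GC.eval_aeval]
    have h1 : ∀ q ∈ Ideal.span (Set.range fun i => MvPolynomial.pderiv i (aF σ W a)),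
        MvPolynomial.eval p q = 0 := by
      intro q hq
      have h2 : Ideal.span (Set.range fun i => MvPolynomial.pderiv i (aF σ W a)) ≤
          RingHom.ker (MvPolynomial.eval p) := by
        rw [Ideal.span_le]
        rintro _ ⟨o, rfl⟩
        exact hder o
      exact h2 hq
    exact h1 _ hD
  have h1 : w ∈ D.roots.toFinset := by
    rw [Multiset.mem_toFinset, Polynomial.mem_roots hD0]
    exact h0
  have h2 := hB w h1
  have h3 := le_abs_self B
  linarith

end crit

section smooth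

variable {s n : ℕ} {K : Type*} [Field K]

/-- The fibrations are smooth at all points with `Φ ≠ 0`. -/
theorem exists_smoothW (σ : K →+* ℂ) (W : LP K (s + 1)) (A : Tower K n) :
    ∃ C : ℝ, 0 < C ∧ ∀ lam : K, C ≤ ‖σ lam‖ → ∀ (z : Fin (s + 1) → ℂ) (x : Fin (n + 1) → ℂ),
      (∀ i, z i ≠ 0) → lval σ W z = eval₂ σ x (tPhi A lam) → eval₂ σ x (tPhi A lam) ≠ 0 →
      (∃ i, lder σ W z i ≠ 0) ∨ ∃ j, eval₂ σ x (pderiv j (tPhi A lam)) ≠ 0 := by
  obtain ⟨B, hB, hcrit⟩ := exists_bound σ W
  obtain ⟨ε, hε, h⟩ := Pool.Agent.Y797.GC.exists_level (map σ A.prod)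
  refine ⟨B / ε + 1, by positivity, fun lam hlam z x hz heq hne => ?_⟩
  by_cases hcase : B ≤ ‖lval σ W z‖
  · exact Or.inl (hcrit z hz hcase)
  · right
    rw [not_le, heq] at hcase
    have hBε : 0 < B / ε := by positivity
    have hl : 0 < ‖σ lam‖ := by linarith
    have hl0 : σ lam ≠ 0 := norm_pos_iff.1 hl
    have h1 : eval₂ σ x (tPhi A lam) = σ lam * eval₂ σ x A.prod := by
      unfold tPhi
      rw [MvPolynomial.eval₂_mul, MvPolynomial.eval₂_C]
    rw [h1] at hne hcase
    have h2 : eval₂ σ x A.prod ≠ 0 := right_ne_zero_of_mul hne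
    have h3 : ‖eval₂ σ x A.prod‖ < ε := by
      rw [norm_mul] at hcase
      by_contra hcon
      rw [not_lt] at hcon
      have h4 : B ≤ (B / ε + 1) * ε := by
        rw [add_mul, div_mul_cancel₀ _ hε.ne']
        linarith
      have h5 : (B / ε + 1) * ε ≤ ‖σ lam‖ * ‖eval₂ σ x A.prod‖ :=
        mul_le_mul hlam hcon hε.le hl.le
      linarith
    obtain ⟨j, hj⟩ := h _ h2 h3 x (by rw [MvPolynomial.eval_map])
    refine ⟨j, ?_⟩
    have h6 : pderiv j (tPhi A lam) = C lam * pderiv j A.prod := by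
      unfold tPhi
      rw [Derivation.leibniz, MvPolynomial.pderiv_C, smul_zero, add_zero, smul_eq_mul]
    rw [h6, MvPolynomial.eval₂_mul, MvPolynomial.eval₂_C]
    refine mul_ne_zero hl0 ?_
    rw [MvPolynomial.pderiv_map, MvPolynomial.eval_map] at hj
    exact hj

end smooth

end Pool.Agent.L7h9.LT
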