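import Pool.Agent.L7h9.LT.Tor
import Pool.Agent.L7h9.LT.Smo
set_option autoImplicit false

/-!
All tori together.
-/

namespace Pool.Agent.L7h9.LT

open Pool.Agent.TH826.MK

open Pool.Agent.N65.TL

open Pool.Agent.Y797.TW (Tower)

variable {K : Type*} [Field K] {s n : ℕ} {W : LP K (s + 1)} {A : Tower K n}

theorem exists_toriT (σ : K →+* ℂ) (hW : Interior W) (hG : A.Graphs) :
    ∃ C : ℝ, 1 ≤ C ∧ ∀ lam : K, C ≤ ‖σ lam‖ →
      ∃ Γ : (∀ j, Fin (A.r j)) → Torus (FOpen W (tPhi A lam)) (s + (n + 1)),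
        (∀ t θ x, (Γ t).e θ (fcst W (tPhi A lam) x) = σ x) ∧
        (Matrix.of fun t k : (∀ j, Fin (A.r j)) =>
          (Γ t).reg (symb (tent W A lam k))).det ≠ 0 := by
  classical
  obtain ⟨al, v, hv, hpos, hmax⟩ := exists_vertex hW
  obtain ⟨i0, hi0⟩ : ∃ i0, v i0 ≠ 0 := by
    by_contra hcon
    push Not at hcon
    have h1 : dot al v = 0 := Finset.sum_eq_zero fun i _ => by rw [hcon i, mul_zero]
    omega
  set D0 : ℝ := (2 * Real.pi) ^ (s + (n + 1)) * ((zmat al v i0).det *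
    ((dot al v : ℤ) : ℝ) ^ (n + 1)) with hD0
  have hD00 : D0 ≠ 0 := by
    refine mul_ne_zero (pow_ne_zero _ (by have := Real.pi_pos; positivity))
      (mul_ne_zero (det_zmat hpos hi0) (pow_ne_zero _ ?_))
    exact_mod_cast hpos.ne'
  have hdiag : (Matrix.diagonal fun _ : (∀ j, Fin (A.r j)) => D0).det ≠ 0 := by
    rw [Matrix.det_diagonal]
    exact Finset.prod_ne_zero_iff.2 fun _ _ => hD00
  obtain ⟨δ, hδ, hnear⟩ := Pool.Agent.TH826.SX.det_ne_zero_near _ hdiag
  choose Λ hΛ1 hΛ using fun c : (∀ j, Fin (A.r j)) =>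
    exists_torusT (W := W) σ hG hv hpos hmax i0 c (ε := δ / 2) (by linarith)
  have hsum : 0 ≤ ∑ c, |Λ c| := Finset.sum_nonneg fun _ _ => abs_nonneg _
  refine ⟨2 + ∑ c, |Λ c|, by linarith, fun lam hlam => ?_⟩
  have hle : ∀ c, Λ c ≤ ‖σ lam‖ := fun c => by
    have h1 := Finset.single_le_sum (f := fun c => |Λ c|) (fun _ _ => abs_nonneg _)
      (Finset.mem_univ c)
    have h2 := le_abs_self (Λ c)
    linarith
  have hlog : 0 < Real.log ‖σ lam‖ := Real.log_pos (by linarith)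
  choose Γ hΓσ hΓ using fun c => hΛ c lam (hle c)
  refine ⟨Γ, hΓσ, ?_⟩
  have h1 := hnear (Matrix.of fun t k : (∀ j, Fin (A.r j)) =>
    (Γ t).reg (symb (tent W A lam k)) / Real.log ‖σ lam‖) (fun t k => by
      have h2 := hΓ t k
      have h3 : (Matrix.diagonal fun _ : (∀ j, Fin (A.r j)) => D0) t k =
          (2 * Real.pi) ^ (s + (n + 1)) * ((zmat al v i0).det *
              (((dot al v : ℤ) : ℝ) ^ (n + 1) * if k = t then 1 else 0)) := by
        by_cases h : k = t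
        · subst h
          rw [Matrix.diagonal_apply_eq, if_pos rfl, mul_one]
        · rw [Matrix.diagonal_apply_ne _ (Ne.symm h), if_neg h, mul_zero, mul_zero, mul_zero]
      rw [Matrix.of_apply, h3]
      exact lt_of_le_of_lt h2 (by linarith))
  intro h0
  apply h1
  have h4 : (Matrix.of fun t k : (∀ j, Fin (A.r j)) =>
      (Γ t).reg (symb (tent W A lam k)) / Real.log ‖σ lam‖) =
      (Real.log ‖σ lam‖)⁻¹ • Matrix.of fun t k : (∀ j, Fin (A.r j)) =>
        (Γ t).reg (symb (tent W A lam k)) := by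
    ext t k
    rw [Matrix.smul_apply, Matrix.of_apply, Matrix.of_apply, smul_eq_mul, div_eq_inv_mul]
  rw [h4, Matrix.det_smul, h0, mul_zero]

end Pool.Agent.L7h9.LT
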