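import Pool.Agent.N65.TL.Fib
set_option autoImplicit false

/-!
The matrix of the orders of the entries `z_0, ..., z_s, u_0, ..., u_d` on the tori.
-/

namespace Pool.Agent.L7h9.LT

open Pool.Agent.N65.TL

section mat

variable {s d : ℕ}

/-- the matrix of the orders of the entries; `N` are the orders of `Φ`, `P` the orders of the
numerators and `Q` of the denominators of the `u_j` -/
noncomputable def Rg (al v : Fin (s + 1) → ℤ) (i0 : Fin (s + 1)) (N : Fin (d + 1) → ℕ)
    (P Q : Fin (d + 1) → Fin (d + 1) → ℕ) :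
    Matrix (Fin (s + (d + 1) + 1)) (Fin (s + (d + 1) + 1)) ℝ :=
  (Matrix.fromBlocks (zmat al v i0) (Matrix.of fun i j => (al i : ℝ) * N j) 0
    (Matrix.of fun l j => ((dot al v : ℤ) : ℝ) * ((P l j : ℝ) - Q l j))).submatrix
    (esum s d).symm (esum s d).symm

theorem det_Rg (al v : Fin (s + 1) → ℤ) (i0 : Fin (s + 1)) (N : Fin (d + 1) → ℕ)
    (P Q : Fin (d + 1) → Fin (d + 1) → ℕ) :
    (Rg al v i0 N P Q).det = (zmat al v i0).det * (((dot al v : ℤ) : ℝ) ^ (d + 1) *
      (Matrix.of fun l j => (P l j : ℝ) - Q l j).det) := by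
  classical
  unfold Rg
  rw [Matrix.det_submatrix_equiv_self, Matrix.det_fromBlocks_zero₂₁]
  congr 1
  have h : (Matrix.of fun l j => ((dot al v : ℤ) : ℝ) * ((P l j : ℝ) - Q l j)) =
      ((dot al v : ℤ) : ℝ) • (Matrix.of fun l j => (P l j : ℝ) - Q l j) := by
    ext l j
    rw [Matrix.smul_apply, Matrix.of_apply, Matrix.of_apply, smul_eq_mul]
  rw [h, Matrix.det_smul, Fintype.card_fin]

variable {al v : Fin (s + 1) → ℤ} {i0 : Fin (s + 1)} {N : Fin (d + 1) → ℕ}
  {P Q : Fin (d + 1) → Fin (d + 1) → ℕ}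

theorem Rg_z_zero (i : Fin (s + 1)) :
    Rg al v i0 N P Q (esum s d (Sum.inl i)) 0 = (al i : ℝ) / dot al v := by
  unfold Rg
  rw [Matrix.submatrix_apply, Equiv.symm_apply_apply, ← esum_zero (s := s) (d := d),
    Equiv.symm_apply_apply, Matrix.fromBlocks_apply₁₁]
  rfl

theorem Rg_z_succ (i : Fin (s + 1)) (j : Fin (s + (d + 1))) :
    Rg al v i0 N P Q (esum s d (Sum.inl i)) j.succ =
      al i * (∑ i', if j = Fin.natAdd s i' then (N i' : ℝ) else 0) +
        ∑ l, if j = Fin.castAdd (d + 1) l then (bdir v i0 l i : ℝ) else 0 := by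
  have hcn : ∀ (l : Fin s) (i' : Fin (d + 1)), Fin.castAdd (d + 1) l ≠ Fin.natAdd s i' := by
    intro l i' h
    have h1 := congrArg Fin.val h
    rw [Fin.val_castAdd, Fin.val_natAdd] at h1
    have := l.isLt
    omega
  unfold Rg
  rw [Matrix.submatrix_apply, Equiv.symm_apply_apply]
  refine Fin.addCases (fun l => ?_) (fun i' => ?_) j
  · rw [← esum_castAdd, Equiv.symm_apply_apply, Matrix.fromBlocks_apply₁₁]
    rw [Finset.sum_eq_zero (fun i' _ => if_neg (hcn l i')), mul_zero, zero_add,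
      Finset.sum_eq_single l]
    · rw [if_pos rfl]
      rfl
    · intro l' _ hl'
      rw [if_neg fun h => hl' (Fin.castAdd_injective _ _ h).symm]
    · intro h
      exact absurd (Finset.mem_univ _) h
  · rw [← esum_natAdd, Equiv.symm_apply_apply, Matrix.fromBlocks_apply₁₂, Matrix.of_apply]
    rw [Finset.sum_eq_zero (s := Finset.univ) (f := fun l => if Fin.natAdd s i' =
      Fin.castAdd (d + 1) l then (bdir v i0 l i : ℝ) else 0)
      (fun l _ => if_neg (fun h => hcn l i' h.symm)), add_zero, Finset.sum_eq_single i']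
    · rw [if_pos rfl]
    · intro l' _ hl'
      rw [if_neg fun h => hl' (Fin.natAdd_injective _ _ h).symm]
    · intro h
      exact absurd (Finset.mem_univ _) h

theorem Rg_u_zero (i : Fin (d + 1)) :
    Rg al v i0 N P Q (esum s d (Sum.inr i)) 0 = 0 := by
  unfold Rg
  rw [Matrix.submatrix_apply, Equiv.symm_apply_apply, ← esum_zero (s := s) (d := d),
    Equiv.symm_apply_apply, Matrix.fromBlocks_apply₂₁]
  rfl

theorem Rg_u_succ (i : Fin (d + 1)) (j : Fin (s + (d + 1))) :
    Rg al v i0 N P Q (esum s d (Sum.inr i)) j.succ =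
      ∑ i', if j = Fin.natAdd s i' then ((dot al v : ℤ) : ℝ) *
        ((P i i' : ℝ) - Q i i') else 0 := by
  have hcn : ∀ (l : Fin s) (i' : Fin (d + 1)), Fin.castAdd (d + 1) l ≠ Fin.natAdd s i' := by
    intro l i' h
    have h1 := congrArg Fin.val h
    rw [Fin.val_castAdd, Fin.val_natAdd] at h1
    have := l.isLt
    omega
  unfold Rg
  rw [Matrix.submatrix_apply, Equiv.symm_apply_apply]
  refine Fin.addCases (fun l => ?_) (fun i' => ?_) j
  · rw [← esum_castAdd, Equiv.symm_apply_apply, Matrix.fromBlocks_apply₂₁]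
    rw [Finset.sum_eq_zero (fun i' _ => if_neg (hcn l i'))]
    rfl
  · rw [← esum_natAdd, Equiv.symm_apply_apply, Matrix.fromBlocks_apply₂₂, Matrix.of_apply]
    rw [Finset.sum_eq_single i']
    · rw [if_pos rfl]
    · intro l' _ hl'
      rw [if_neg fun h => hl' (Fin.natAdd_injective _ _ h).symm]
    · intro h
      exact absurd (Finset.mem_univ _) h

end mat

end Pool.Agent.L7h9.LT
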