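import Pool.Agent.L7h9.LT.Unr
import Pool.Agent.L7h9.LT.Mat
import Pool.Agent.Y797.TW.Gen
set_option autoImplicit false

/-!
The regulators of the symbols on the fibrations `W(z) = λ g ∏_j ∏_i (x_j - φ_{j,i})` over towers of
graphs, for large `λ`.
-/

namespace Pool.Agent.L7h9.LT

open Filter Topology

open MvPolynomial

open Pool.Agent.TH826.MK

open Pool.Agent.TH826.SX (pairing_close det_ne_zero_near)

open Pool.Agent.TH577.UA

open Pool.Agent.N65.TL

open Pool.Agent.Y797.TW (Tower exists_chart exists_rapid nex ex mch wcc eval_mch prod_wcc hh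
  contDiff_hh hh_zero contDiff_wcc wcc_zero fct det_ex sum_nex IsLow)

section det

variable {n : ℕ} {r : Fin (n + 1) → ℕ}

/-- the determinant of the orders of the `u_j` -/
theorem det_ord (m : Fin (n + 1) → ℕ)
    (al : Option ((j : Fin (n + 1)) × Fin (r j + 1)) → Fin (n + 1) →₀ ℕ)
    (c : ∀ j, Fin (r j)) (h1 : ∀ j, al (some ⟨j, (c j).succ⟩) = Finsupp.single j 1)
    (h2 : ∀ j i, i ≠ (c j).succ → ∀ l, l ≤ j → al (some ⟨j, i⟩) l = 0) (k : ∀ j, Fin (r j)) :
    (Matrix.of fun l j => ((nex m (fun i => al (some ⟨l, (k l).succ⟩) i) j : ℕ) : ℝ) -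
      ((nex m (fun i => al (some ⟨l, 0⟩) i) j : ℕ) : ℝ)).det = if k = c then 1 else 0 := by
  have hz : ∀ j, (0 : Fin (r j + 1)) ≠ (c j).succ := fun j => (Fin.succ_ne_zero _).symm
  have h : (Matrix.of fun l j => ((nex m (fun i => al (some ⟨l, (k l).succ⟩) i) j : ℕ) : ℝ) -
      ((nex m (fun i => al (some ⟨l, 0⟩) i) j : ℕ) : ℝ)) =
      (Matrix.of fun l i => ((al (some ⟨l, (k l).succ⟩) i : ℕ) : ℝ) -
        ((al (some ⟨l, 0⟩) i : ℕ) : ℝ)) *
      (Matrix.of fun j l => ((ex m j l : ℕ) : ℝ)) := by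
    ext l j
    rw [Matrix.mul_apply]
    simp only [Matrix.of_apply]
    rw [sum_nex, sum_nex, ← Finset.sum_sub_distrib]
    exact Finset.sum_congr rfl fun p _ => by ring
  rw [h, Matrix.det_mul, det_ex, mul_one]
  rw [Matrix.det_of_isUpperTriangular]
  · by_cases hk : k = c
    · subst hk
      rw [if_pos rfl]
      refine Finset.prod_eq_one fun l _ => ?_
      rw [Matrix.of_apply, h1, h2 l 0 (hz l) l le_rfl, Finsupp.single_eq_same]
      norm_num
    · rw [if_neg hk]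
      obtain ⟨l, hl⟩ := Function.ne_iff.1 hk
      refine Finset.prod_eq_zero (Finset.mem_univ l) ?_
      rw [Matrix.of_apply, h2 l 0 (hz l) l le_rfl, h2 l (k l).succ ?_ l le_rfl, sub_self]
      exact fun e => hl (Fin.succ_injective _ e)
  · intro l j hlj
    have hlj' : j < l := hlj
    rw [Matrix.of_apply, h2 l 0 (hz l) j hlj'.le]
    by_cases hk : k l = c l
    · rw [hk, h1, Finsupp.single_eq_of_ne hlj'.ne]
      simp
    · rw [h2 l (k l).succ (fun e => hk (Fin.succ_injective _ e)) j hlj'.le, sub_self]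

end det

section main

variable {K : Type*} [Field K] {s n : ℕ} {W : LP K (s + 1)} {A : Tower K n}

theorem exists_torusT (σ : K →+* ℂ) (hG : A.Graphs) {al v : Fin (s + 1) → ℤ}
    (hv : W.coeff v ≠ 0) (hpos : 0 < dot al v)
    (hmax : ∀ m, W.coeff m ≠ 0 → m ≠ v → dot al m < dot al v) (i0 : Fin (s + 1))
    (c : ∀ j, Fin (A.r j)) {ε : ℝ} (hε : 0 < ε) :
    ∃ Λ0 : ℝ, 1 < Λ0 ∧ ∀ lam : K, Λ0 ≤ ‖σ lam‖ →
      ∃ Γ : Torus (FOpen W (tPhi A lam)) (s + (n + 1)),
        (∀ θ x, Γ.e θ (fcst W (tPhi A lam) x) = σ x) ∧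
        ∀ k : ∀ j, Fin (A.r j),
          |Γ.reg (symb (tent W A lam k)) / Real.log ‖σ lam‖ -
            (2 * Real.pi) ^ (s + (n + 1)) * ((zmat al v i0).det *
              (((dot al v : ℤ) : ℝ) ^ (n + 1) * if k = c then 1 else 0))| ≤ ε := by
  classical
  have hpi := Real.pi_pos
  have hnpi : ‖(2 * Real.pi * Complex.I : ℂ)‖ = 2 * Real.pi := by
    rw [norm_mul, norm_mul, Complex.norm_I, Complex.norm_real, Complex.norm_ofNat, mul_one,
      Real.norm_eq_abs, abs_of_pos Real.pi_pos]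
  set k : ℕ := (dot al v).toNat with hk
  have hkz : (k : ℤ) = dot al v := Int.toNat_of_nonneg hpos.le
  have hk0 : 0 < k := by omega
  have hkR : (0 : ℝ) < k := by exact_mod_cast hk0
  have hkzR : ((dot al v : ℤ) : ℝ) = k := by
    rw [← hkz]
    simp
  have hσv : σ (W.coeff v) ≠ 0 := (map_ne_zero σ).2 hv
  -- the chart
  obtain ⟨x, ao, hao, hao1, hao2⟩ := exists_chart A σ hG fun j => (c j).succ
  set D0 : ℕ := ∑ e, ∑ j, ao e j with hD0
  have hD : ∀ e j, ao e j ≤ D0 := fun e j =>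
    (Finset.single_le_sum (f := fun j => ao e j) (fun _ _ => Nat.zero_le _)
      (Finset.mem_univ j)).trans
    (Finset.single_le_sum (f := fun e => ∑ j, ao e j) (fun _ _ => Nat.zero_le _)
      (Finset.mem_univ e))
  obtain ⟨m, hm⟩ := exists_rapid D0 (n + 1)
  set mu : Option ((j : Fin (n + 1)) × Fin (A.r j + 1)) → Fin (n + 1) → ℕ :=
    fun e => nex m fun i => ao e i with hmu
  set h : Option ((j : Fin (n + 1)) × Fin (A.r j + 1)) → (Fin n → ℂ) × ℂ → ℂ :=
    fun e y => hh m (bind₁ x (map σ (fct A e))) (ao e) (wcc y) with hh'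
  have hfac : ∀ e y, MvPolynomial.eval (mch m (wcc y)) (bind₁ x (map σ (fct A e))) =
      mmon (mu e) y * h e y := fun e y => by
    rw [eval_mch hm (hao e) (hD e), prod_wcc]
  have hcd : ∀ e, ContDiff ℂ 2 (h e) := fun e => (contDiff_hh m _ _).comp contDiff_wcc
  have hne : ∀ e, h e 0 ≠ 0 := fun e => by
    simp only [hh']
    rw [wcc_zero]
    exact hh_zero hm (hao e) (hD e)
  set N : Fin (n + 1) → ℕ := fun j => ∑ e, 1 * mu e j with hN
  set P : (∀ j, Fin (A.r j)) → Fin (n + 1) → Fin (n + 1) → ℕ :=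
    fun k' l => mu (some ⟨l, (k' l).succ⟩) with hP
  set Q' : Fin (n + 1) → Fin (n + 1) → ℕ := fun l => mu (some ⟨l, 0⟩) with hQ'
  have hdet : ∀ k' : ∀ j, Fin (A.r j), (Rg al v i0 N (P k') Q').det = (zmat al v i0).det *
      (((dot al v : ℤ) : ℝ) ^ (n + 1) * if k' = c then 1 else 0) := fun k' => by
    rw [det_Rg]
    congr 2
    exact det_ord m ao c hao1 hao2 k'
  -- tolerances
  choose δ hδ hclose using fun k' : ∀ j, Fin (A.r j) =>
    pairing_close (Rg al v i0 N (P k') Q') hε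
  obtain ⟨T0, -, hT0⟩ := Finset.exists_min_image Finset.univ δ ⟨c, Finset.mem_univ _⟩
  set Ab : ℝ := 1 + ∑ i, |(al i : ℝ)| with hA
  have hA1 : 1 ≤ Ab := by
    have : 0 ≤ ∑ i, |(al i : ℝ)| := Finset.sum_nonneg fun i _ => abs_nonneg _
    linarith
  have hAi : ∀ i, |(al i : ℝ)| ≤ Ab := by
    intro i
    have h1 := Finset.single_le_sum (f := fun i => |(al i : ℝ)|) (fun i _ => abs_nonneg _)
      (Finset.mem_univ i)
    have h2 : |(al i : ℝ)| ≤ ∑ i, |(al i : ℝ)| := h1
    linarith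
  set δ0 : ℝ := δ T0 / (4 * Ab) with hδ0
  have hδ0pos : 0 < δ0 := div_pos (hδ T0) (by linarith)
  have hδle : ∀ T', 3 * (Ab * δ0) < δ T' := by
    intro T'
    have h1 := hT0 T' (Finset.mem_univ T')
    have h2 : δ T0 = 4 * (Ab * δ0) := by
      rw [hδ0]
      field_simp
    have h3 : 0 < Ab * δ0 := by positivity
    linarith
  have hδA : δ0 ≤ Ab * δ0 := le_mul_of_one_le_left hδ0pos.le hA1
  -- the root
  set Q : (Fin n → ℂ) × ℂ → ℂ := fun y => ∏ e, h e y ^ 1 with hQ
  have hQc : ContDiff ℂ 2 Q := contDiff_prod fun e _ => (hcd e).pow _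
  have hQ0 : Q 0 ≠ 0 := Finset.prod_ne_zero_iff.2 fun e _ => pow_ne_zero _ (hne e)
  obtain ⟨Rt, hRc, hR0, hRe⟩ := exists_root Q hQc.contDiffAt hQ0 hk0
  obtain ⟨Cc, ρ, hC, hρ, hρ1, hrho⟩ := exists_rho hk0
    (fun (e : Option (Option ((j : Fin (n + 1)) × Fin (A.r j + 1)))) y =>
      Option.elim e (Rt y) fun e => h e y)
    (fun e => by
      cases e with
      | none => exact hRc
      | some e => exact (hcd e).contDiffAt)
    (fun e => by
      cases e with
      | none => exact hR0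
      | some e => exact hne e)
    (P := fun y => Rt y ^ k = Q y) hRe hδ0pos
  -- the functions `z_i`
  set B : ℝ := 2 * Real.pi * ∑ i, (N i : ℝ) + δ0 with hB
  have hB0 : 0 ≤ B := by positivity
  obtain ⟨R, hR1, hz⟩ := exists_z σ hv hpos hmax i0 hB0 hδ0pos
  -- constants
  set Mu : ℝ := ∑ e, ∑ i, (mu e i : ℝ) with hMu
  have hMu0 : 0 ≤ Mu := by positivity
  have hMue : ∀ e, ∑ i, (mu e i : ℝ) ≤ Mu := fun e =>
    Finset.single_le_sum (f := fun e => ∑ i, (mu e i : ℝ))
      (fun e _ => Finset.sum_nonneg fun i _ => Nat.cast_nonneg _) (Finset.mem_univ e)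
  set C1 : ℝ := k * Mu * |Real.log ρ| + Cc with hC1
  have hC10 : 0 ≤ C1 := by positivity
  set C2 : ℝ := |Real.log ‖σ (W.coeff v)‖| + (∑ i, (N i : ℝ)) * |Real.log ρ| + Cc with hC2
  have hC20 : 0 ≤ C2 := by positivity
  set M : ℝ := (Ab * C2 + δ0) / δ0 + (2 * C1) / δ0 + k * (Real.log R + C2) + 1 with hM
  have hlogR : 0 ≤ Real.log R := Real.log_nonneg hR1
  have hM1 : 0 ≤ (Ab * C2 + δ0) / δ0 := by positivity
  have hM2 : 0 ≤ (2 * C1) / δ0 := by positivity
  have hM3 : 0 ≤ k * (Real.log R + C2) := by positivity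
  refine ⟨Real.exp M + 1, by linarith [Real.exp_pos M], fun lam hlam => ?_⟩
  have hln : 0 < ‖σ lam‖ := by linarith [Real.exp_pos M]
  have hl0 : σ lam ≠ 0 := norm_pos_iff.1 hln
  set t : ℝ := Real.log ‖σ lam‖ with ht
  have htM : M ≤ t := by
    rw [ht, Real.le_log_iff_exp_le hln]
    linarith
  have htpos : 0 < t := by linarith
  have ht0 : t ≠ 0 := htpos.ne'
  -- the positions of the angles
  obtain ⟨hRy, hfun⟩ := hrho (s + (n + 1)) (Fin.natAdd s)
  set Y : (Fin (s + (n + 1)) → ℝ) → (Fin n → ℂ) × ℂ := yk k ρ (Fin.natAdd s) with hY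
  have hhg : ∀ e, Good fun θ => h e (Y θ) := fun e => (hfun (some e)).1
  have hhlog : ∀ e θ, |Real.log ‖h e (Y θ)‖| ≤ Cc := fun e θ => ((hfun (some e)).2 θ).1
  have hhlw : ∀ e θ j, ‖lw (fun θ => h e (Y θ)) j θ‖ ≤ δ0 := fun e θ j =>
    ((hfun (some e)).2 θ).2 j
  have hRg : Good fun θ => Rt (Y θ) := (hfun none).1
  have hRlog : ∀ θ, |Real.log ‖Rt (Y θ)‖| ≤ Cc := fun θ => ((hfun none).2 θ).1
  have hRlw : ∀ θ j, ‖lw (fun θ => Rt (Y θ)) j θ‖ ≤ δ0 := fun θ j => ((hfun none).2 θ).2 j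
  set X : (Fin (s + (n + 1)) → ℝ) → Fin (n + 1) → ℂ := fun θ j =>
    MvPolynomial.eval (mch m (wcc (Y θ))) (x j) with hX
  have hval : ∀ (p : MvPolynomial (Fin (n + 1)) K) θ, eval₂ σ (X θ) p =
      MvPolynomial.eval (mch m (wcc (Y θ))) (bind₁ x (map σ p)) := by
    intro p θ
    unfold MvPolynomial.eval
    rw [MvPolynomial.eval₂Hom_bind₁]
    show _ = MvPolynomial.eval₂ (RingHom.id ℂ) _ (map σ p)
    rw [MvPolynomial.eval₂_map, RingHom.id_comp]
    rfl
  have hmch : ContDiff ℂ 2 fun u : (Fin n → ℂ) × ℂ => mch m (wcc u) := by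
    refine contDiff_pi.2 fun j => ?_
    unfold mch
    exact contDiff_prod fun l _ => (contDiff_pi.1 contDiff_wcc l).pow _
  have hXc : ContDiff ℝ 2 X := by
    refine contDiff_pi.2 fun j => ?_
    have h1 : ∀ p : MvPolynomial (Fin (n + 1)) ℂ, ContDiff ℂ 2
        fun u : (Fin n → ℂ) × ℂ => MvPolynomial.eval (mch m (wcc u)) p := by
      intro p
      induction p using MvPolynomial.induction_on with
      | C c => simpa using contDiff_const
      | add p q hp hq => simpa using hp.add hq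
      | mul_X p k hp => simpa using hp.mul (contDiff_pi.1 hmch k)
    exact ((h1 (x j)).restrict_scalars ℝ).comp (contDiff_yk hρ)
  have hXp : ∀ θ j, X (θ + Pi.single j 1) = X θ := fun θ j => by
    simp only [hX, hY, yk_add_single]
  -- the factors
  set lc : (Fin (s + (n + 1)) → ℝ) → Option ((j : Fin (n + 1)) × Fin (A.r j + 1)) → ℂ :=
    fun θ e => eval₂ σ (X θ) (fct A e) with hlc
  have hLfun : ∀ e, (fun θ => lc θ e) =
      fun θ => mk1 ρ (Fin.natAdd s) (fun i => k * mu e i) θ * h e (Y θ) := by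
    intro e
    funext θ
    simp only [hlc]
    rw [hval, hfac, hY, mmon_yk]
  have hLg : ∀ e, Good fun θ => lc θ e := fun e => by
    rw [hLfun]
    exact (good_mk1 hρ _).mul (hhg e)
  have hLlog : ∀ e θ, |Real.log ‖lc θ e‖| ≤ C1 := by
    intro e θ
    rw [congrFun (hLfun e) θ, norm_mul, Real.log_mul
      (norm_ne_zero_iff.2 ((good_mk1 hρ _).ne_zero θ)) (norm_ne_zero_iff.2 ((hhg e).ne_zero θ)),
      log_mk1 hρ]
    refine (abs_add_le _ _).trans (add_le_add ?_ (hhlog e θ))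
    rw [abs_mul]
    refine mul_le_mul_of_nonneg_right ?_ (abs_nonneg _)
    have h1 : ∑ i, (((k * mu e i : ℕ)) : ℝ) = k * ∑ i, (mu e i : ℝ) := by
      push_cast
      rw [Finset.mul_sum]
    rw [h1, abs_of_nonneg (by positivity)]
    exact mul_le_mul_of_nonneg_left (hMue e) hkR.le
  have hLlw : ∀ e θ j, ‖lw (fun θ => lc θ e) j θ - 2 * Real.pi * Complex.I *
      ∑ i, (if j = Fin.natAdd s i then (((k * mu e i : ℕ)) : ℂ) else 0)‖ ≤ δ0 := by
    intro e θ j
    rw [hLfun, lw_mul (good_mk1 hρ _) (hhg e), lw_mk1 hρ, add_sub_cancel_left]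
    exact hhlw e θ j
  -- the root `Λ`
  obtain ⟨κ, hκ⟩ := IsAlgClosed.exists_pow_nat_eq (σ lam / σ (W.coeff v)) hk0
  have hκ0 : κ ≠ 0 := by
    rintro rfl
    rw [zero_pow hk0.ne'] at hκ
    exact (div_ne_zero hl0 hσv) hκ.symm
  set Λ : (Fin (s + (n + 1)) → ℝ) → ℂ := fun θ =>
    κ * (mk1 ρ (Fin.natAdd s) N θ * Rt (Y θ)) with hΛ
  have hmg : Good (mk1 ρ (Fin.natAdd s (m := n + 1)) N) := good_mk1 hρ N
  have hΛg : Good Λ := (good_const hκ0).mul (hmg.mul hRg)
  have hΛp : Per Λ := by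
    intro θ j
    simp only [hΛ]
    have h1 := per_mk1 (ρ := ρ) (p := Fin.natAdd s (m := n + 1)) N θ j
    have h2 : Y (θ + Pi.single j 1) = Y θ := by rw [hY, yk_add_single]
    rw [h1, h2]
  have hlogκ : Real.log ‖κ‖ = (t - Real.log ‖σ (W.coeff v)‖) / k := by
    have h1 : (k : ℝ) * Real.log ‖κ‖ = t - Real.log ‖σ (W.coeff v)‖ := by
      rw [← Real.log_pow, ← norm_pow, hκ, norm_div, Real.log_div hln.ne'
        (norm_ne_zero_iff.2 hσv)]
    rw [← h1]
    field_simp
  have hΛlog : ∀ θ, |Real.log ‖Λ θ‖ - t / k| ≤ C2 := by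
    intro θ
    have h1 : Real.log ‖Λ θ‖ = Real.log ‖κ‖ + ((∑ i, (N i : ℝ)) * Real.log ρ +
        Real.log ‖Rt (Y θ)‖) := by
      simp only [hΛ]
      rw [norm_mul, norm_mul, Real.log_mul (norm_ne_zero_iff.2 hκ0)
        (mul_ne_zero (norm_ne_zero_iff.2 (hmg.ne_zero θ))
          (norm_ne_zero_iff.2 (hRg.ne_zero θ))), Real.log_mul
          (norm_ne_zero_iff.2 (hmg.ne_zero θ)) (norm_ne_zero_iff.2 (hRg.ne_zero θ)),
        log_mk1 hρ]
    rw [h1, hlogκ]
    have h2 : (t - Real.log ‖σ (W.coeff v)‖) / k + ((∑ i, (N i : ℝ)) * Real.log ρ +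
        Real.log ‖Rt (Y θ)‖) - t / k = -(Real.log ‖σ (W.coeff v)‖ / k) +
        ((∑ i, (N i : ℝ)) * Real.log ρ + Real.log ‖Rt (Y θ)‖) := by
      ring
    rw [h2]
    refine (abs_add_le _ _).trans ?_
    rw [hC2, add_assoc]
    refine add_le_add ?_ ((abs_add_le _ _).trans (add_le_add ?_ (hRlog θ)))
    · rw [abs_neg, abs_div, abs_of_pos hkR]
      have h3 : (1 : ℝ) ≤ k := by exact_mod_cast hk0
      exact div_le_self (abs_nonneg _) h3
    · rw [abs_mul, abs_of_nonneg (by positivity)]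
  have hΛR : ∀ θ, R ≤ ‖Λ θ‖ := by
    intro θ
    have h1 := (abs_le.1 (hΛlog θ)).1
    have h2 : Real.log R ≤ Real.log ‖Λ θ‖ := by
      have h3 : Real.log R + C2 ≤ t / k := by
        rw [le_div_iff₀ hkR]
        linarith
      linarith
    exact (Real.log_le_log_iff (by linarith) (norm_pos_iff.2 (hΛg.ne_zero θ))).1 h2
  have hΛlw : ∀ θ j, ‖lw Λ j θ - 2 * Real.pi * Complex.I *
      ∑ i, (if j = Fin.natAdd s i then (N i : ℂ) else 0)‖ ≤ δ0 := by
    intro θ j
    have h1 := lw_mul (good_const (d := s + (n + 1)) hκ0) (hmg.mul hRg) j θ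
    rw [lw_const, zero_add, lw_mul hmg hRg, lw_mk1 hρ] at h1
    have h2 : lw Λ j θ = _ := h1
    rw [h2, add_sub_cancel_left]
    exact hRlw θ j
  have hNsum : ∀ j : Fin (s + (n + 1)), ‖∑ i, (if j = Fin.natAdd s i then (N i : ℂ) else 0)‖ ≤
      ∑ i, (N i : ℝ) := by
    intro j
    refine (norm_sum_le _ _).trans (Finset.sum_le_sum fun i _ => ?_)
    split_ifs
    · rw [Complex.norm_natCast]
    · rw [norm_zero]
      exact Nat.cast_nonneg _
  have hΛB : ∀ j θ, ‖lw Λ j θ‖ ≤ B := by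
    intro j θ
    have h1 := norm_sub_norm_le (lw Λ j θ) (2 * Real.pi * Complex.I *
      ∑ i, (if j = Fin.natAdd s i then (N i : ℂ) else 0))
    have h2 := hΛlw θ j
    have h3 : ‖(2 * Real.pi * Complex.I * ∑ i, (if j = Fin.natAdd s i then (N i : ℂ) else 0) : ℂ)‖
        ≤ 2 * Real.pi * ∑ i, (N i : ℝ) := by
      rw [norm_mul, hnpi]
      exact mul_le_mul_of_nonneg_left (hNsum j) (by positivity)
    rw [hB]
    linarith
  have hΛk : ∀ θ, σ (W.coeff v) * Λ θ ^ k = MvPolynomial.eval₂ σ (X θ) (tPhi A lam) := by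
    intro θ
    have h1 : MvPolynomial.eval₂ σ (X θ) (tPhi A lam) = σ lam * ∏ e, lc θ e ^ 1 := by
      have h2 := tPhi_of_hom (A := A) (lam := lam) (eval₂Hom σ (X θ))
      simp only [coe_eval₂Hom, eval₂_C] at h2
      rw [h2, Fintype.prod_option, Fintype.prod_sigma]
      simp only [pow_one]
      rfl
    have h2 : ∏ e, lc θ e ^ 1 =
        mk1 ρ (Fin.natAdd s) N θ ^ k * ∏ e, h e (Y θ) ^ 1 := by
      have h3 : ∀ e, lc θ e = mmon (mu e) (Y θ) * h e (Y θ) := fun e => by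
        simp only [hlc]
        rw [hval, hfac]
      simp only [h3, mul_pow, Finset.prod_mul_distrib]
      congr 1
      rw [mmon_prod (fun e => mu e) (fun _ => 1), ← mk1_pow, hY]
      exact mmon_yk _ θ
    have h4 : Rt (Y θ) ^ k = Q (Y θ) := hRy θ
    rw [h1, h2]
    simp only [hΛ]
    rw [mul_pow, mul_pow, hκ, h4, hQ]
    field_simp
  obtain ⟨Z, hZg, hZp, hZlog, hZlw, hZeq⟩ := hz (s + (n + 1)) (Fin.castAdd (n + 1)) Λ hΛg hΛp
    hΛR hΛB
  have hPt : ∀ θ, FPt σ W (tPhi A lam) (X θ) fun i => Z i θ := fun θ =>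
    { ne := fun i => (hZg i).ne_zero θ
      eq := (hZeq θ).trans (hΛk θ)
      phi := by
        rw [← hΛk θ]
        exact mul_ne_zero hσv (pow_ne_zero _ (hΛg.ne_zero θ)) }
  set Γ := mkF hXc hZg hPt hXp hZp with hΓ
  refine ⟨Γ, fun θ x => (hPt θ).evA_fcst x, fun k' => ?_⟩
  rw [Torus.reg_symb, ← hdet k']
  have hgoodE : ∀ l, Good (Γ.fn (tent W A lam k' l : FOpen W (tPhi A lam))) :=
    fun l => Γ.good _
  have hzfn : ∀ i, Γ.fn (tent W A lam k' (esum s n (Sum.inl i)) :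
      FOpen W (tPhi A lam)) = Z i := by
    intro i
    have h1 : tent W A lam k' (esum s n (Sum.inl i)) = fz W (tPhi A lam) i := by
      unfold tent
      rw [Equiv.symm_apply_apply, Sum.elim_inl]
    rw [h1]
    funext θ
    exact (hPt θ).evA_fz i
  have hufn : ∀ i : Fin (n + 1), (fun θ => Γ.fn (tent W A lam k' (esum s n (Sum.inr i)) :
      FOpen W (tPhi A lam)) θ * lc θ (some ⟨i, 0⟩)) =
        fun θ => lc θ (some ⟨i, (k' i).succ⟩) := by
    intro i
    have h1 : tent W A lam k' (esum s n (Sum.inr i)) = tu W A lam k' i := by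
      unfold tent
      rw [Equiv.symm_apply_apply, Sum.elim_inr]
    rw [h1]
    funext θ
    have h2 : ∀ e, lc θ (some ⟨i, e⟩) = (hPt θ).evA (tL W A lam i e :
        FOpen W (tPhi A lam)) := by
      intro e
      have h3 : (tL W A lam i e : FOpen W (tPhi A lam)) =
        fx W (tPhi A lam) (A.fac i e) := rfl
      rw [h3, (hPt θ).evA_fx]
      rfl
    have h5 : Γ.fn (tu W A lam k' i : FOpen W (tPhi A lam)) θ =
        (hPt θ).evA (tu W A lam k' i : FOpen W (tPhi A lam)) := rfl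
    rw [h5, h2, h2, ← map_mul]
    congr 1
    unfold tu
    rw [← Units.val_mul, div_mul_cancel]
  refine hclose k' _ _ ht0 hgoodE (fun l θ => ?_) (fun l j θ => ?_)
  · obtain ⟨r, rfl⟩ := (esum s n).surjective l
    rcases r with i | i
    · rw [Rg_z_zero, congrFun (hzfn i) θ, hkzR]
      refine lt_of_le_of_lt ?_ (hδle k')
      have h1 := hZlog i θ
      have h2 := hΛlog θ
      have h3 : Real.log ‖Z i θ‖ / t - al i / k =
          ((Real.log ‖Z i θ‖ - al i * Real.log ‖Λ θ‖) +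
            al i * (Real.log ‖Λ θ‖ - t / k)) / t := by
        field_simp
        ring
      rw [h3, abs_div, abs_of_pos htpos, div_le_iff₀ htpos]
      refine (abs_add_le _ _).trans ?_
      rw [abs_mul]
      have h4 : |(al i : ℝ)| * |Real.log ‖Λ θ‖ - t / k| ≤ Ab * C2 :=
        mul_le_mul (hAi i) h2 (abs_nonneg _) (by linarith)
      have h5 : (Ab * C2 + δ0) / δ0 ≤ t := by linarith
      rw [div_le_iff₀ hδ0pos] at h5
      have h6 : t * δ0 ≤ 3 * (Ab * δ0) * t := by
        have : δ0 ≤ 3 * (Ab * δ0) := by linarith [mul_pos (lt_of_lt_of_le one_pos hA1) hδ0pos]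
        nlinarith
      linarith
    · rw [Rg_u_zero, sub_zero]
      refine lt_of_le_of_lt ?_ (hδle k')
      have h1 := hLlog (some ⟨i, (k' i).succ⟩) θ
      have h2 := hLlog (some ⟨i, 0⟩) θ
      have h4 : Real.log ‖Γ.fn (tent W A lam k' (esum s n (Sum.inr i)) :
          FOpen W (tPhi A lam)) θ * lc θ (some ⟨i, 0⟩)‖ =
          Real.log ‖lc θ (some ⟨i, (k' i).succ⟩)‖ :=
        congrArg (fun z : ℂ => Real.log ‖z‖) (congrFun (hufn i) θ)
      rw [norm_mul, Real.log_mul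
        (norm_ne_zero_iff.2 ((hgoodE _).ne_zero θ)) (norm_ne_zero_iff.2 ((hLg _).ne_zero θ))]
        at h4
      have h5 : Real.log ‖Γ.fn (tent W A lam k' (esum s n (Sum.inr i)) :
          FOpen W (tPhi A lam)) θ‖ =
          Real.log ‖lc θ (some ⟨i, (k' i).succ⟩)‖ - Real.log ‖lc θ (some ⟨i, 0⟩)‖ := by
        linarith
      rw [h5, abs_div, abs_of_pos htpos, div_le_iff₀ htpos]
      have h6 : |Real.log ‖lc θ (some ⟨i, (k' i).succ⟩)‖ - Real.log ‖lc θ (some ⟨i, 0⟩)‖| ≤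
          2 * C1 := by
        have a1 := abs_le.1 h1
        have a2 := abs_le.1 h2
        rw [abs_le]
        constructor <;> linarith [a1.1, a1.2, a2.1, a2.2]
      have h7 : (2 * C1) / δ0 ≤ t := by linarith
      rw [div_le_iff₀ hδ0pos] at h7
      have h8 : t * δ0 ≤ 3 * (Ab * δ0) * t := by
        have : δ0 ≤ 3 * (Ab * δ0) := by linarith [mul_pos (lt_of_lt_of_le one_pos hA1) hδ0pos]
        nlinarith
      linarith
  · obtain ⟨r, rfl⟩ := (esum s n).surjective l
    rcases r with i | i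
    · rw [Rg_z_succ, hzfn i]
      refine lt_of_le_of_lt ?_ (hδle k')
      have h1 := hZlw i j θ
      have h2 := hΛlw θ j
      have hite : ∀ (P : Prop) [Decidable P] (x : ℝ),
          ((if P then x else 0 : ℝ) : ℂ) = if P then (x : ℂ) else 0 := by
        intro P _ x
        split_ifs <;> simp
      simp only [Complex.ofReal_add, Complex.ofReal_mul, Complex.ofReal_sum, hite,
        Complex.ofReal_natCast, Complex.ofReal_intCast]
      have e1 : lw (Z i) j θ - 2 * Real.pi * Complex.I *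
          (al i * (∑ i', if j = Fin.natAdd s i' then (N i' : ℂ) else 0) +
            ∑ l, if j = Fin.castAdd (n + 1) l then (bdir v i0 l i : ℂ) else 0) =
          (lw (Z i) j θ - (al i * lw Λ j θ + 2 * Real.pi * Complex.I *
            ∑ l, if j = Fin.castAdd (n + 1) l then (bdir v i0 l i : ℂ) else 0)) +
          al i * (lw Λ j θ - 2 * Real.pi * Complex.I *
            ∑ i, (if j = Fin.natAdd s i then (N i : ℂ) else 0)) := by
        ring
      rw [e1]
      refine (norm_add_le _ _).trans ?_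
      rw [norm_mul, Complex.norm_intCast]
      have h4 : |(al i : ℝ)| * ‖lw Λ j θ - 2 * Real.pi * Complex.I *
            ∑ i, (if j = Fin.natAdd s i then (N i : ℂ) else 0)‖ ≤ Ab * δ0 :=
        mul_le_mul (hAi i) h2 (norm_nonneg _) (by linarith)
      linarith
    · rw [Rg_u_succ]
      refine lt_of_le_of_lt ?_ (hδle k')
      have h1 := hLlw (some ⟨i, (k' i).succ⟩) θ j
      have h2 := hLlw (some ⟨i, 0⟩) θ j
      have h3 := lw_mul (hgoodE (esum s n (Sum.inr i))) (hLg (some ⟨i, 0⟩)) j θ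
      rw [hufn i] at h3
      have h4 : lw (Γ.fn (tent W A lam k' (esum s n (Sum.inr i)) :
          FOpen W (tPhi A lam))) j θ = lw (fun θ => lc θ (some ⟨i, (k' i).succ⟩)) j θ -
          lw (fun θ => lc θ (some ⟨i, 0⟩)) j θ := by
        rw [eq_sub_iff_add_eq]
        exact h3.symm
      have e1 : (((∑ i', if j = Fin.natAdd s i' then ((dot al v : ℤ) : ℝ) *
          ((P k' i i' : ℝ) - Q' i i') else 0 : ℝ)) : ℂ) =
          (∑ i', (if j = Fin.natAdd s i' then (((k * mu (some ⟨i, (k' i).succ⟩) i' : ℕ)) : ℂ)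
            else 0)) -
          ∑ i', (if j = Fin.natAdd s i' then (((k * mu (some ⟨i, 0⟩) i' : ℕ)) : ℂ)
            else 0) := by
        rw [hkzR, ← Finset.sum_sub_distrib, Complex.ofReal_sum]
        refine Finset.sum_congr rfl fun i' _ => ?_
        split_ifs
        · simp only [hP, hQ']
          push_cast
          ring
        · simp
      rw [h4, e1]
      have e2 : lw (fun θ => lc θ (some ⟨i, (k' i).succ⟩)) j θ -
          lw (fun θ => lc θ (some ⟨i, 0⟩)) j θ - 2 * Real.pi * Complex.I *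
          ((∑ i', (if j = Fin.natAdd s i' then (((k * mu (some ⟨i, (k' i).succ⟩) i' : ℕ)) : ℂ)
            else 0)) -
          ∑ i', (if j = Fin.natAdd s i' then (((k * mu (some ⟨i, 0⟩) i' : ℕ)) : ℂ)
            else 0)) =
          (lw (fun θ => lc θ (some ⟨i, (k' i).succ⟩)) j θ - 2 * Real.pi * Complex.I *
            ∑ i', (if j = Fin.natAdd s i' then (((k * mu (some ⟨i, (k' i).succ⟩) i' : ℕ)) : ℂ)
              else 0)) -
          (lw (fun θ => lc θ (some ⟨i, 0⟩)) j θ - 2 * Real.pi * Complex.I *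
            ∑ i', (if j = Fin.natAdd s i' then (((k * mu (some ⟨i, 0⟩) i' : ℕ)) : ℂ)
              else 0)) := by ring
      rw [e2]
      refine (norm_sub_le _ _).trans ?_
      linarith

end main

end Pool.Agent.L7h9.LT
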